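import Mathlib
import Pool.Agent.H57.PSys.Ring

set_option autoImplicit false

/-!
The circuit formed by the arcs of a member of the chain and the matching edges of a level is
connected (MP_a46c6f_co).
-/

namespace Pool.Agent.H98.PS

open Pool.Agent.H64.Pent Pool.Agent.H77.GC Pool.Agent.H57.PSys

variable {n : ℕ} {p : Equiv.Perm (ZMod n)} {e : ZMod n} {m : ℕ} {c d : ZMod n → ℕ}

theorem arc_conn (H : ChainCol p e m c d) (hn : 3 ≤ n) {j k : ℕ} (hk : k = j ∨ k = j + 1)
    (hjm : j < m) (U : Wt p e c d j → Prop) (h1 : ∀ w, U w → U (sw H w))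
    (h2 : ∀ w, U w → U (arc H hn hk w)) (h3 : ∃ w, U w) : ∀ w, U w := by
  classical
  set φ : Xt p e c d k → Prop := fun x => ∃ w, U w ∧ Orb (nu H hn k) (ta H j k) (em hk w) x with hφ
  have hnu : ∀ x, φ (nu H hn k x) ↔ φ x := by
    intro x
    constructor
    · rintro ⟨w, hw, ho⟩
      refine ⟨w, hw, ?_⟩
      have := ho.nu
      rwa [nu_nu] at this
    · rintro ⟨w, hw, ho⟩
      exact ⟨w, hw, ho.nu⟩
  have hta : ∀ x, φ (ta H j k x) ↔ φ x := by
    intro x
    constructor
    · rintro ⟨w, hw, ho⟩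
      refine ⟨w, hw, ?_⟩
      have := ho.tau
      rwa [ta_ta] at this
    · rintro ⟨w, hw, ho⟩
      exact ⟨w, hw, ho.tau⟩
  have hem : ∀ w : Wt p e c d j, φ (em hk w) ↔ U w := by
    intro w
    constructor
    · rintro ⟨w', hw', ho⟩
      rcases arc_uniq H hn hk ho with h | h
      · rw [h]; exact hw'
      · rw [h]; exact h2 _ hw'
    · intro hw
      exact ⟨w, hw, Orb.refl _ _ _⟩
  have hsw : ∀ w : Wt p e c d j, U (sw H w) ↔ U w := by
    intro w
    constructor
    · intro h
      have h4 := h1 _ h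
      have h5 : sw H (sw H w) = w := Subtype.ext (sg_sg _)
      rwa [h5] at h4
    · exact h1 w
  -- the two ends of a matching edge
  have hsg : ∀ (v : Vt n) (hv : v.1 ≠ e ∧ (lv p c d v = k ∨ lv p c d v + 1 = k))
      (hv' : (sg v).1 ≠ e ∧ (lv p c d (sg v) = k ∨ lv p c d (sg v) + 1 = k)),
      φ ⟨v, hv⟩ ↔ φ ⟨sg v, hv'⟩ := by
    intro v hv hv'
    by_cases hj : lv p c d v = j
    · have e1 : (⟨v, hv⟩ : Xt p e c d k) = em hk (⟨v, hv.1, hj⟩ : Wt p e c d j) := rfl
      have e2 : (⟨sg v, hv'⟩ : Xt p e c d k) = em hk (sw H (⟨v, hv.1, hj⟩ : Wt p e c d j)) := rfl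
      rw [e1, e2, hem, hem, hsw]
    · have e1 : ta H j k ⟨v, hv⟩ = ⟨sg v, hv'⟩ := ta_neg H _ hj
      rw [← e1, hta]
  set s : ZMod n → ZMod 2 := fun i => if ed φ (i, false) then 1 else 0 with hs
  set t : ZMod n → ZMod 2 := fun jj => if ed φ (p.symm jj, true) then 1 else 0 with ht
  have hcoe : ∀ (v : Vt n) (x : Vt n), (x = dn p v ∧ l1 p c d v = k ∨ x = v ∧ l2 p c d v = k) →
      ∀ hv : v.1 ≠ e ∧ (lv p c d v = k ∨ lv p c d v + 1 = k), (ed φ x ↔ φ ⟨v, hv⟩) := by
    intro v x hx hv
    rcases hx with ⟨rfl, hx⟩ | ⟨rfl, hx⟩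
    · exact ed_dn H hn φ hnu ⟨v, hv⟩ hx
    · exact ed_up H hn φ hnu ⟨x, hv⟩ hx
  have hkm : k ≤ m := by omega
  obtain ⟨v0, hc0, hd0⟩ := H.conn k hkm s t (by
    intro i hi a b ha hb hca hdb
    have ha' : ((a, false) : Vt n) = dn p (i, false) ∧ l1 p c d ((i, false) : Vt n) = k ∨
        ((a, false) : Vt n) = (i, false) ∧ l2 p c d ((i, false) : Vt n) = k := by
      rcases ha with rfl | rfl
      · left; exact ⟨by simp [dn], by simpa [l1] using hca⟩
      · right; exact ⟨rfl, by simpa [l2] using hca⟩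
    have hb' : ((p.symm b, true) : Vt n) = dn p (i, true) ∧ l1 p c d ((i, true) : Vt n) = k ∨
        ((p.symm b, true) : Vt n) = (i, true) ∧ l2 p c d ((i, true) : Vt n) = k := by
      rcases hb with rfl | rfl
      · left; exact ⟨by simp [dn], by simpa [l1] using hdb⟩
      · right; exact ⟨by simp, by simpa [l2] using hdb⟩
    have hv : ((i, false) : Vt n).1 ≠ e ∧ (lv p c d ((i, false) : Vt n) = k ∨
        lv p c d ((i, false) : Vt n) + 1 = k) :=
      ⟨hi, mem_of_l H _ hi (by rcases ha' with h | h; exact Or.inl h.2; exact Or.inr h.2)⟩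
    have hv' : ((i, true) : Vt n).1 ≠ e ∧ (lv p c d ((i, true) : Vt n) = k ∨
        lv p c d ((i, true) : Vt n) + 1 = k) :=
      ⟨hi, mem_of_l H _ hi (by rcases hb' with h | h; exact Or.inl h.2; exact Or.inr h.2)⟩
    have e1 := hcoe _ _ ha' hv
    have e2 := hcoe _ _ hb' hv'
    have e3 := hsg (i, false) hv hv'
    have e4 : ed φ (a, false) ↔ ed φ (p.symm b, true) := by
      rw [e1, e2]
      exact e3
    simp only [hs, ht]
    by_cases h : ed φ (a, false)
    · rw [if_pos h, if_pos (e4.1 h)]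
    · rw [if_neg h, if_neg (fun h' => h (e4.2 h'))]) (by
    intro hk0
    have e1 := ed_e H hn φ hnu (e, false) rfl (by simp [l2, H.cx.2, hk0])
    have e2 : dn p ((e, false) : Vt n) = (e - 1, false) := by simp [dn]
    rw [e2] at e1
    simp only [hs]
    by_cases h : ed φ (e - 1, false)
    · rw [if_pos h, if_pos (e1.1 h)]
    · rw [if_neg h, if_neg (fun h' => h (e1.2 h'))]) (by
    intro hk0
    have e1 := ed_e H hn φ hnu (e, true) rfl (by simp [l2, H.cy.2, hk0])
    have e2 : dn p ((e, true) : Vt n) = (p.symm (p e - 1), true) := by simp [dn]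
    rw [e2] at e1
    have e3 : p.symm (p e) = e := by simp
    simp only [ht, e3]
    by_cases h : ed φ (p.symm (p e - 1), true)
    · rw [if_pos h, if_pos (e1.1 h)]
    · rw [if_neg h, if_neg (fun h' => h (e1.2 h'))])
  -- the value at a vertex of the level
  have hval : ∀ w : Wt p e c d j, (U w ↔ v0 = 1) := by
    intro w
    rw [← hem w]
    obtain ⟨⟨i, bb⟩, hw1, hw2⟩ := w
    have hlc := lev_cases H (k := k) (i, bb) hw1 (by have := hw2; omega)
    have hmm : ((i, bb) : Vt n).1 ≠ e ∧ (lv p c d ((i, bb) : Vt n) = k ∨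
        lv p c d ((i, bb) : Vt n) + 1 = k) := ⟨hw1, by have := hw2; omega⟩
    change φ ⟨(i, bb), _⟩ ↔ _
    rcases bb with _ | _
    · rcases hlc with hlc | hlc
      · have e1 := hcoe (i, false) (i, false) (Or.inr ⟨rfl, hlc.1⟩) hmm
        have e2 := hc0 i (by simpa [l2] using hlc.1)
        simp only [hs] at e2
        rw [← e1, ← e2]
        by_cases h : ed φ (i, false)
        · simp [h]
        · simp [h]
      · have e1 := hcoe (i, false) (i - 1, false) (Or.inl ⟨by simp [dn], hlc.1⟩) hmm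
        have e2 := hc0 (i - 1) (by simpa [l1] using hlc.1)
        simp only [hs] at e2
        rw [← e1, ← e2]
        by_cases h : ed φ (i - 1, false)
        · simp [h]
        · simp [h]
    · rcases hlc with hlc | hlc
      · have e1 := hcoe (i, true) (i, true) (Or.inr ⟨rfl, hlc.1⟩) hmm
        have e2 := hd0 (p i) (by simpa [l2] using hlc.1)
        simp only [ht, Equiv.symm_apply_apply] at e2
        rw [← e1, ← e2]
        by_cases h : ed φ (i, true)
        · simp [h]
        · simp [h]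
      · have e1 := hcoe (i, true) (p.symm (p i - 1), true) (Or.inl ⟨by simp [dn], hlc.1⟩) hmm
        have e2 := hd0 (p i - 1) (by simpa [l1] using hlc.1)
        simp only [ht] at e2
        rw [← e1, ← e2]
        by_cases h : ed φ (p.symm (p i - 1), true)
        · simp [h]
        · simp [h]
  obtain ⟨w0, hw0⟩ := h3
  intro w
  exact (hval w).2 ((hval w0).1 hw0)

end Pool.Agent.H98.PS
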